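import Mathlib
import Pool.Agent.Y729.AE.Count
import Pool.Agent.Y729.RV.Comb
import Pool.Agent.Y729.RV.Base
import Pool.Agent.Y729.AX.Line

/-!
# The abc inequality over all extensions of given degree of a number field

Let `K` be a number field and `r ≥ 1`. We consider the points `P = (a : b : c)` with
`a + b + c = 0` and `abc ≠ 0` over an algebraic closure of `K` which have degree `r` over `K`, that
is, whose quotients of coordinates generate an extension of `K` of degree `r`; so `P` is a point
over a field `L` with `[L : K] = r` (and over all finite extensions of it), and all such `L` are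
considered at once. For every `M > 1/3` (and, if `r ≥ 2`, for every `M` above a smaller bound) the
inequality
`h(P) < M (rad_T(P) + d_{L/K}) + c`
holds for all but a power-saving proportion of the points of bounded height, for all fields `L` of
definition of `P`. Here `d_{L/K}` is the logarithm of the relative discriminant, divided by the
degree of `L` over `ℚ`; for `L = K` it is zero. So the constants are uniform in the fields `L`.

The proof uses the coordinate `t = a / (b - c)`: the coordinates of `P` are proportional to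
`-2 t, t - 1, t + 1`. The library files count the `t` in two ways, for each field `K(t)` by unit
equations, and for all fields together by the values of the minimal polynomial of `t` at `0, 1, -1`.
-/

set_option autoImplicit false

namespace Pool.Agent.Results.MP_a793bb_nt.AbcInAllExtensions

open IntermediateField IsDedekindDomain NumberField

/-- The height `h(P)` of the point `P` with coordinates `x`: Mathlib's logarithmic height (the sum
over all places `v` of `log max_i ‖x_i‖_v`), divided by the degree of the field. -/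
noncomputable def height {L : Type} [Field L] [NumberField L] (x : Fin 3 → L) : ℝ :=
  Height.logHeight x / Module.finrank ℚ L

open Classical in
/-- The radical of the point `P` with coordinates `x`, without the primes above `T`: the sum of
`log N(v) / [L : ℚ]` over the primes `v` of `L`, not above a prime in `T`, at which the valuations
of the coordinates are not all equal. -/
noncomputable def rad {K : Type} [Field K] [NumberField K] (T : Finset (HeightOneSpectrum (𝓞 K)))
    {L : Type} [Field L] [NumberField L] [Algebra K L] (x : Fin 3 → L) : ℝ :=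
  (∑ᶠ v : HeightOneSpectrum (𝓞 L),
      if (∀ p ∈ T, v.asIdeal.comap (algebraMap (𝓞 K) (𝓞 L)) ≠ p.asIdeal) ∧
        ¬ (v.valuation L (x 0) = v.valuation L (x 1) ∧ v.valuation L (x 1) = v.valuation L (x 2))
      then Real.log (Ideal.absNorm v.asIdeal) else 0) / Module.finrank ℚ L

/-- The logarithmic discriminant `d_{L/K} = log (N(D_{L/K})) / [L : ℚ]`, where
`N(D_{L/K}) = |disc L| / |disc K| ^ [L : K]` is the norm of the relative discriminant. -/
noncomputable def logDisc (K L : Type) [Field K] [NumberField K] [Field L] [NumberField L]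
    [Algebra K L] : ℝ :=
  Real.log (|(NumberField.discr L : ℝ)| / |(NumberField.discr K : ℝ)| ^ Module.finrank K L) /
    Module.finrank ℚ L

/-- The degree over `K` of the field generated by the quotients of the coordinates of `P`. -/
noncomputable def degree (K : Type) [Field K]
    (P : Projectivization (AlgebraicClosure K) (Fin 3 → AlgebraicClosure K)) : ℕ :=
  Module.finrank K (IntermediateField.adjoin K
    (Set.range fun p : Fin 3 × Fin 3 => P.rep p.1 / P.rep p.2))

/-- The points `P = (a : b : c)` of degree `r` over `K` with `a + b + c = 0` and `abc ≠ 0`, of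
height at most `log B`, such that `h(P) < M (rad_T(P) + d_{L/K}) + c` fails for some number field
`L` containing `K` over which `P` is defined. -/
def Exceptions (K : Type) [Field K] [NumberField K] (T : Finset (HeightOneSpectrum (𝓞 K)))
    (r : ℕ) (M c B : ℝ) :
    Set (Projectivization (AlgebraicClosure K) (Fin 3 → AlgebraicClosure K)) :=
  {P | degree K P = r ∧
    ∃ (L : IntermediateField K (AlgebraicClosure K)) (_ : NumberField L) (x : Fin 3 → L)
      (hx : (fun i => (x i : AlgebraicClosure K)) ≠ 0),
      P = Projectivization.mk (AlgebraicClosure K) (fun i => (x i : AlgebraicClosure K)) hx ∧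
      x 0 + x 1 + x 2 = 0 ∧ x 0 * x 1 * x 2 ≠ 0 ∧ Real.exp (height x) ≤ B ∧
      M * (rad T x + logDisc K L) + c ≤ height x}

/-- Schmidt's exponent: `(n + 2) (n - 1) / (4 (n - n / p))`, where `p` is the least prime factor of
`n`. -/
noncomputable def schmidt (n : ℕ) : ℝ :=
  (((n + 2) * (n - 1) : ℕ) : ℝ) / (4 * ((n - n / n.minFac : ℕ) : ℝ))

/-- The exponent of the theorem: with `m = min 3 (r + 1)`, the smaller of `α / M` and
`((3 α - 2) (r + 1 - m) + m α / M) / (3 α + m - 2)`. -/
noncomputable def exponent (α : ℝ) (r : ℕ) (M : ℝ) : ℝ :=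
  min (α / M) (((3 * α - 2) * (r + 1 - (min 3 (r + 1) : ℕ)) +
    (min 3 (r + 1) : ℕ) * α / M) / (3 * α + (min 3 (r + 1) : ℕ) - 2))

lemma aux {α : ℝ} {r : ℕ} (hr : 1 ≤ r) (hα : 2 / 3 ≤ α) :
    (2 : ℝ) ≤ (min 3 (r + 1) : ℕ) ∧ ((min 3 (r + 1) : ℕ) : ℝ) ≤ r + 1 ∧
      0 ≤ 3 * α - 2 ∧ 0 < 3 * α + (min 3 (r + 1) : ℕ) - 2 := by
  have := Pool.Agent.Y729.RV.xp_aux (α := α) hr (le_refl 3) (by norm_num; linarith)
  push_cast at this ⊢
  exact this

lemma exponent_eq (α : ℝ) (r : ℕ) (M : ℝ) :
    Pool.Agent.Y729.RV.xp α r 3 (3 - 1 / M) = exponent α r M := by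
  unfold Pool.Agent.Y729.RV.xp exponent
  have e1 : ((3 : ℕ) : ℝ) - (3 - 1 / M) = 1 / M := by push_cast; ring
  rw [e1]
  push_cast
  congr 1
  · ring
  · congr 1
    ring

lemma exponent_lt {α : ℝ} {r : ℕ} (hr : 1 ≤ r) (hα : 2 / 3 ≤ α) {M : ℝ}
    (hM : α / (3 * α + r - 1) < M) : exponent α r M < r + 1 := by
  obtain ⟨h1, h2, h3, h4⟩ := aux hr hα
  have hr1 : (1 : ℝ) ≤ r := by exact_mod_cast hr
  have hα0 : 0 < α := by linarith
  have h0 : 0 < 3 * α + r - 1 := by linarith
  have hM0 : 0 < M := lt_trans (by positivity) hM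
  refine (min_le_right _ _).trans_lt ?_
  rw [div_lt_iff₀ h4]
  set m : ℝ := ((min 3 (r + 1) : ℕ) : ℝ) with hm
  have h5 : m * α / M < m * (3 * α + r - 1) := by
    rw [div_lt_iff₀ hM0]
    rw [div_lt_iff₀ h0] at hM
    have hm0 : 0 < m := by linarith
    nlinarith
  nlinarith

lemma threshold {α : ℝ} {r : ℕ} (hr : 1 ≤ r) (hα : 2 / 3 ≤ α) :
    α / (3 * α + r - 1) ≤ 1 / 3 ∧ (2 ≤ r → α / (3 * α + r - 1) < 1 / 3) := by
  have hr1 : (1 : ℝ) ≤ r := by exact_mod_cast hr
  have h0 : 0 < 3 * α + r - 1 := by linarith
  constructor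
  · rw [div_le_div_iff₀ h0 (by norm_num)]
    linarith
  · intro h
    have hr2 : (2 : ℝ) ≤ r := by exact_mod_cast h
    rw [div_lt_div_iff₀ h0 (by norm_num)]
    linarith

lemma exponent_nonneg {α : ℝ} {r : ℕ} (hr : 1 ≤ r) (hα : 2 / 3 ≤ α) {M : ℝ} (hM : 0 < M) :
    0 ≤ exponent α r M := by
  obtain ⟨h1, h2, h3, h4⟩ := aux hr hα
  have hα0 : 0 ≤ α := by linarith
  unfold exponent
  refine le_min (by positivity) (div_nonneg (add_nonneg (mul_nonneg h3 (by linarith)) ?_) h4.le)
  positivity

lemma schmidt_ge {n : ℕ} (hn : 2 ≤ n) : 2 / 3 ≤ schmidt n := by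
  unfold schmidt
  have h1 : 1 ≤ n / n.minFac :=
    Nat.div_pos (Nat.minFac_le (by omega)) (Nat.minFac_pos n)
  have h1' : n / n.minFac < n := Nat.div_lt_self (by omega) (Nat.minFac_prime (by omega)).one_lt
  have h2 : n - n / n.minFac ≤ n - 1 := by omega
  have h3 : (0 : ℝ) < ((n - n / n.minFac : ℕ) : ℝ) := by
    exact_mod_cast (show 0 < n - n / n.minFac by omega)
  rw [div_le_div_iff₀ (by norm_num) (by positivity)]
  have h4 : 2 * (4 * (n - n / n.minFac)) ≤ ((n + 2) * (n - 1)) * 3 := by
    have h5 : 4 * (n - 1) ≤ (n + 2) * (n - 1) := Nat.mul_le_mul_right _ (by omega)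
    omega
  exact_mod_cast h4

/-- The vector `(-2 t, t - 1, t + 1)`. -/
def vec {F : Type} [Field F] (t : F) : Fin 3 → F := ![-2 * t, t - 1, t + 1]

lemma vec_ne {F : Type} [Field F] [CharZero F] (t : F) : vec t ≠ 0 := by
  intro h
  have h1 : t - 1 = 0 := congrFun h 1
  have h2 : t + 1 = 0 := congrFun h 2
  have h3 : (2 : F) = 0 := by linear_combination h2 - h1
  norm_num at h3

/-- A point with coordinates `x` is the point with the parameter `x_0 / (x_1 - x_2)`. -/
lemma mk_eq {F : Type} [Field F] [CharZero F] {x : Fin 3 → F} (hx : x ≠ 0)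
    (hs : x 0 + x 1 + x 2 = 0) (h12 : x 1 ≠ x 2) :
    Projectivization.mk F x hx =
      Projectivization.mk F (vec (x 0 / (x 1 - x 2))) (vec_ne _) := by
  rw [Projectivization.mk_eq_mk_iff']
  have hd : x 1 - x 2 ≠ 0 := sub_ne_zero.2 h12
  refine ⟨-(x 1 - x 2) / 2, ?_⟩
  have hx0 : x 0 = -(x 1) - x 2 := by linear_combination hs
  funext i
  fin_cases i
  · simp only [vec, Pi.smul_apply, smul_eq_mul, Fin.zero_eta, Matrix.cons_val_zero]
    field_simp
  · simp only [vec, Pi.smul_apply, smul_eq_mul, Fin.mk_one, Matrix.cons_val_one,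
      Matrix.cons_val_zero]
    rw [hx0]
    field_simp
    ring
  · simp only [vec, Pi.smul_apply, smul_eq_mul, Fin.reduceFinMk, Matrix.cons_val]
    rw [hx0]
    field_simp
    ring

/-- The field generated by the quotients of the coordinates is generated by the parameter. -/
lemma field_eq {K F : Type} [Field K] [Field F] [CharZero F] [Algebra K F] {x : Fin 3 → F}
    (hx : x ≠ 0) (hs : x 0 + x 1 + x 2 = 0) (h12 : x 1 ≠ x 2) (h0 : x 0 ≠ 0) (h1 : x 1 ≠ 0)
    (h2 : x 2 ≠ 0) :
    IntermediateField.adjoin K (Set.range fun p : Fin 3 × Fin 3 =>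
      (Projectivization.mk F x hx).rep p.1 / (Projectivization.mk F x hx).rep p.2) =
      K⟮x 0 / (x 1 - x 2)⟯ := by
  obtain ⟨a, ha⟩ := Projectivization.exists_smul_eq_mk_rep F x hx
  have hr : (fun p : Fin 3 × Fin 3 =>
      (Projectivization.mk F x hx).rep p.1 / (Projectivization.mk F x hx).rep p.2) =
      fun p => x p.1 / x p.2 := by
    funext p
    rw [← ha]
    simp only [Pi.smul_apply, Units.smul_def, smul_eq_mul]
    exact mul_div_mul_left _ _ a.ne_zero
  rw [hr]
  have hd : x 1 - x 2 ≠ 0 := sub_ne_zero.2 h12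
  have hx0 : x 0 = -(x 1) - x 2 := by linear_combination hs
  have hxn : ∀ i, x i ≠ 0 := by
    intro i
    fin_cases i
    · exact h0
    · exact h1
    · exact h2
  refine le_antisymm ?_ ?_
  · rw [IntermediateField.adjoin_le_iff]
    rintro _ ⟨⟨i, j⟩, rfl⟩
    have ht : x 0 / (x 1 - x 2) ∈ K⟮x 0 / (x 1 - x 2)⟯ := mem_adjoin_simple_self K _
    set E := K⟮x 0 / (x 1 - x 2)⟯ with hE
    have hti : (x 0 / (x 1 - x 2))⁻¹ ∈ E := E.inv_mem ht
    have hall : ∀ i, x i / x 0 ∈ E := by
      intro i
      fin_cases i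
      · change x 0 / x 0 ∈ E
        rw [div_self h0]
        exact E.one_mem
      · change x 1 / x 0 ∈ E
        have e : x 1 / x 0 = ((x 0 / (x 1 - x 2))⁻¹ - 1) / 2 := by
          rw [inv_div]
          have h9 : -(x 1) - x 2 ≠ 0 := by rw [← hx0]; exact h0
          rw [hx0]
          field_simp
          ring
        rw [e]
        exact E.div_mem (E.sub_mem hti E.one_mem) (ofNat_mem E 2)
      · change x 2 / x 0 ∈ E
        have e : x 2 / x 0 = (-(x 0 / (x 1 - x 2))⁻¹ - 1) / 2 := by
          rw [inv_div]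
          have h9 : -(x 1) - x 2 ≠ 0 := by rw [← hx0]; exact h0
          rw [hx0]
          field_simp
          ring
        rw [e]
        exact E.div_mem (E.sub_mem (E.neg_mem hti) E.one_mem) (ofNat_mem E 2)
    have e : x i / x j = (x i / x 0) / (x j / x 0) := by
      have := hxn j
      field_simp
    change x i / x j ∈ E
    rw [e]
    exact E.div_mem (hall i) (hall j)
  · rw [IntermediateField.adjoin_simple_le_iff]
    set E := IntermediateField.adjoin K (Set.range fun p : Fin 3 × Fin 3 => x p.1 / x p.2) with hE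
    have hm : ∀ i j, x i / x j ∈ E := fun i j =>
      IntermediateField.subset_adjoin K _ ⟨(i, j), rfl⟩
    have e : x 0 / (x 1 - x 2) = (x 1 / x 0 - x 2 / x 0)⁻¹ := by
      rw [← sub_div, inv_div]
    rw [e]
    exact E.inv_mem (E.sub_mem (hm 1 0) (hm 2 0))

/-- **The abc inequality over all extensions of given degree of a number field.** There is a
function `α` with `α 1 = 2 / 3`, `2 / 3 ≤ α n ≤ (n + 2) (n - 1) / (4 (n - n / p))` (`p` the least
prime factor of `n ≥ 2`) and `α n = O((log n)²)`, such that the following holds. Let `K` be a number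
field of degree `d`, let `T` be a finite set of primes of `K`, let `r ≥ 1` and let `M > 0`, `c` and
`δ > 0` be real. Then for all `B ≥ 1`, all but `C * B ^ (d * r * exponent (α r) r M + δ)` points
`P = (a : b : c)` with `a + b + c = 0`, `abc ≠ 0`, of degree `r` over `K` and of height at most
`log B` satisfy `h(P) < M (rad_T(P) + d_{L/K}) + c` for all number fields `L ⊇ K` over which they
are defined. If `M > α_r / (3 α_r + r - 1)`, which is `1/3` for `r = 1` and less than `1/3` for
`r ≥ 2`, then `exponent (α r) r M < r + 1`, while the number of all these points is of order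
`B ^ (d * r * (r + 1))` (Schanuel for `r = 1`, Masser and Vaaler for all `r`). -/
theorem result : ∃ α : ℕ → ℝ, α 1 = 2 / 3 ∧ (∀ n, 2 ≤ n → 2 / 3 ≤ α n ∧ α n ≤ schmidt n) ∧
    (∀ c : ℝ, 1 / (8 * (Real.log 2) ^ 2) < c →
      ∀ᶠ n : ℕ in Filter.atTop, α n ≤ c * (Real.log n) ^ 2) ∧
    (∀ r : ℕ, 1 ≤ r → α r / (3 * α r + r - 1) ≤ 1 / 3 ∧
      (2 ≤ r → α r / (3 * α r + r - 1) < 1 / 3) ∧
      ∀ M : ℝ, α r / (3 * α r + r - 1) < M → exponent (α r) r M < r + 1) ∧
    ∀ (K : Type) [Field K] [NumberField K] (T : Finset (HeightOneSpectrum (𝓞 K))) (r : ℕ),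
      1 ≤ r → ∀ M c δ : ℝ, 0 < M → 0 < δ →
    ∃ C : ℝ, ∀ B : ℝ, 1 ≤ B → (Exceptions K T r M c B).Finite ∧
      ((Exceptions K T r M c B).ncard : ℝ) ≤
        C * B ^ ((Module.finrank ℚ K : ℝ) * r * exponent (α r) r M + δ) := by
  classical
  obtain ⟨e, he1, he2, he3, he4, he5⟩ := Pool.Agent.Y729.AE.linnikK
  have hα23 : ∀ n, 2 / 3 ≤ max (e n) (2 / 3) := fun n => le_max_right _ _
  refine ⟨fun n => max (e n) (2 / 3), ?_, ?_, ?_, ?_, ?_⟩
  · simp only [he4]
    norm_num
  · intro n hn
    exact ⟨hα23 n, max_le (he3 n hn) (schmidt_ge hn)⟩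
  · intro c hc
    have hl2 : 0 < Real.log 2 := Real.log_pos (by norm_num)
    have hc0 : 0 < c := lt_trans (by positivity) hc
    have hlog : Filter.Tendsto (fun n : ℕ => Real.log n) Filter.atTop Filter.atTop :=
      Real.tendsto_log_atTop.comp tendsto_natCast_atTop_atTop
    have h1 : Filter.Tendsto (fun n : ℕ => c * (Real.log n) ^ 2) Filter.atTop Filter.atTop :=
      Filter.Tendsto.const_mul_atTop hc0 ((Filter.tendsto_pow_atTop two_ne_zero).comp hlog)
    filter_upwards [he1 c hc, h1.eventually_ge_atTop (2 / 3)] with n hn1 hn2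
    exact max_le hn1 hn2
  · intro r hr
    exact ⟨(threshold hr (hα23 r)).1, (threshold hr (hα23 r)).2,
      fun M hM => exponent_lt hr (hα23 r) hM⟩
  intro K _ _ T r hr M c δ hM hδ
  simp only
  set α : ℝ := max (e r) (2 / 3) with hαd
  have hα : 2 / 3 ≤ α := hα23 r
  have hα0 : 0 < α := by linarith
  set d : ℕ := Module.finrank ℚ K with hd
  have hd0 : 0 < d := Module.finrank_pos
  have hdR : (0 : ℝ) < d := by exact_mod_cast hd0
  have hr0 : (0 : ℝ) < r := by exact_mod_cast (show 0 < r by omega)
  obtain ⟨n, hn⟩ : ∃ n : ℝ, n = r := ⟨r, rfl⟩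
  have hn0 : 0 < n := by rw [hn]; exact hr0
  rw [← hn]
  obtain ⟨CF, hCF, hF⟩ := he5 r hr d
  set S' : Finset ℕ := insert 2 (T.biUnion fun p => (Ideal.absNorm p.asIdeal).primeFactors)
    with hS'
  have hS'p : ∀ p ∈ S', p.Prime := by
    intro p hp
    rcases Finset.mem_insert.1 hp with h | h
    · rw [h]
      exact Nat.prime_two
    · obtain ⟨v, -, hv⟩ := Finset.mem_biUnion.1 h
      exact Nat.prime_of_mem_primeFactors hv
  set a := Pool.Agent.Y729.AX.pts K with ha
  set lK : ℝ := Real.log |(NumberField.discr K : ℝ)| with hlK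
  set l2 : ℝ := Real.log 2 with hl2
  set C1 : ℝ := d * n * ((4 * l2 - c) / M) + n * lK with hC1
  set Cx : ℝ := d * n * (3 * l2) with hCx
  obtain ⟨D, hD, hcomb⟩ := Pool.Agent.Y729.RV.comb S' hS'p a Pool.Agent.Y729.AX.pts_inj
    (le_refl 3) r hr (e r) (he2 r) CF hCF (hF K rfl) α (le_max_left _ _)
    (by push_cast; linarith) (3 - 1 / M) C1
    (by push_cast; have : 0 < 1 / M := by positivity
        linarith)
    (show 0 < δ / (d * n) by positivity)
  have hxp := exponent_eq α r M
  have hxp0 := exponent_nonneg hr hα hM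
  have hl20 : 0 < l2 := Real.log_pos (by norm_num)
  rw [hxp] at hcomb
  refine ⟨D * Real.exp ((exponent α r M + δ / (d * n)) * Cx) + 1, fun B hB1 => ?_⟩
  have hlB : 0 ≤ Real.log B := Real.log_nonneg hB1
  have hB0 : 0 < B := by linarith
  set X : ℝ := d * n * Real.log B + Cx with hX
  obtain ⟨hfin, hcard⟩ := hcomb X (by positivity)
  set V := Pool.Agent.Y729.RV.Vx S' a r (3 - 1 / M) C1 X with hV
  set ψ : AlgebraicClosure K → Projectivization (AlgebraicClosure K)
    (Fin 3 → AlgebraicClosure K) := fun t => Projectivization.mk _ (vec t) (vec_ne t) with hψ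
  have hP0 : (![-2, 1, 1] : Fin 3 → AlgebraicClosure K) ≠ 0 := by
    intro h
    have h1 : (1 : AlgebraicClosure K) = 0 := congrFun h 1
    exact one_ne_zero h1
  set P0 : Projectivization (AlgebraicClosure K) (Fin 3 → AlgebraicClosure K) :=
    Projectivization.mk _ ![-2, 1, 1] hP0 with hP0d
  have hsub : Exceptions K T r M c B ⊆ ψ '' V ∪ {P0} := by
    rintro P ⟨hdeg, L, hLN, x, hx, hP, hs, hne, hh, hv⟩
    set xx : Fin 3 → AlgebraicClosure K := fun i => (x i : AlgebraicClosure K) with hxx
    have hssL : xx 0 + xx 1 + xx 2 = 0 := by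
      have := congrArg (algebraMap L (AlgebraicClosure K)) hs
      simpa using this
    have h0 : x 0 ≠ 0 := fun h => hne (by rw [h, zero_mul, zero_mul])
    have h1 : x 1 ≠ 0 := fun h => hne (by rw [h, mul_zero, zero_mul])
    have h2 : x 2 ≠ 0 := fun h => hne (by rw [h, mul_zero])
    have hinjL : ∀ u : L, (u : AlgebraicClosure K) = 0 → u = 0 := fun u hu => Subtype.ext hu
    by_cases h12 : x 1 = x 2
    · -- the left out point
      refine Or.inr ?_
      rw [Set.mem_singleton_iff, hP, hP0d, Projectivization.mk_eq_mk_iff']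
      refine ⟨xx 1, ?_⟩
      have e2 : xx 2 = xx 1 := by rw [hxx]; simp only; rw [h12]
      have e0 : xx 0 = -2 * xx 1 := by
        rw [e2] at hssL
        linear_combination hssL
      funext i
      fin_cases i
      · change xx 1 * (-2) = xx 0
        rw [e0]
        ring
      · change xx 1 * 1 = xx 1
        ring
      · change xx 1 * 1 = xx 2
        rw [e2]
        ring
    refine Or.inl ?_
    have h12' : xx 1 ≠ xx 2 := fun h => h12 (Subtype.ext h)
    set ξ : L := x 0 / (x 1 - x 2) with hξ
    set y : AlgebraicClosure K := xx 0 / (xx 1 - xx 2) with hy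
    have hyξ : (ξ : AlgebraicClosure K) = y := by
      rw [hξ, hy]
      simp [hxx]
    refine ⟨y, ?_, ?_⟩
    swap
    · rw [hψ, hP]
      exact (mk_eq hx hssL h12').symm
    have hdeg' : Module.finrank K K⟮y⟯ = r := by
      rw [← hdeg, hP]
      unfold degree
      rw [field_eq (K := K) hx hssL h12' (fun h => h0 (hinjL _ h)) (fun h => h1 (hinjL _ h))
        (fun h => h2 (hinjL _ h))]
    have hyL : y ∈ L := by
      rw [← hyξ]
      exact ξ.2
    have hle : K⟮y⟯ ≤ L := IntermediateField.adjoin_simple_le_iff.mpr hyL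
    let : Algebra K⟮y⟯ L := (IntermediateField.inclusion hle).toRingHom.toAlgebra
    have : IsScalarTower K K⟮y⟯ L := IsScalarTower.of_algebraMap_eq' rfl
    have hgen : algebraMap K⟮y⟯ L (AdjoinSimple.gen K y) = ξ := Subtype.ext hyξ.symm
    have hξa : ∀ j, ξ ≠ algebraMap K L (a j) :=
      Pool.Agent.Y729.AX.ne_pts (K := K) hs h12 h0 h1 h2
    have hya : ∀ j, y ≠ algebraMap K (AlgebraicClosure K) (a j) := by
      intro j h9
      apply hξa j
      apply Subtype.ext
      rw [hyξ, h9]
      rfl
    have hgena : ∀ j, AdjoinSimple.gen K y ≠ algebraMap K K⟮y⟯ (a j) := by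
      intro j h9
      apply hξa j
      rw [← hgen, h9]
      rfl
    have h3 := Pool.Agent.Y729.RV.base_cnt (L := L) S' a (AdjoinSimple.gen K y) hgena
    rw [hgen] at h3
    have h4 : Height.logHeight₁ ξ =
        Module.finrank K⟮y⟯ L * Height.logHeight₁ (AdjoinSimple.gen K y) := by
      rw [← hgen]
      exact Pool.Agent.Y729.AE.ht_ext (AdjoinSimple.gen K y)
    have hFL : (0 : ℝ) < Module.finrank K⟮y⟯ L := by exact_mod_cast Module.finrank_pos
    have : FiniteDimensional K L := Module.Finite.of_restrictScalars_finite ℚ K L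
    have hLpos : (0 : ℝ) < Module.finrank ℚ L := by exact_mod_cast Module.finrank_pos
    have htow : (Module.finrank K L : ℝ) = n * Module.finrank K⟮y⟯ L := by
      have h5 : Module.finrank K K⟮y⟯ * Module.finrank K⟮y⟯ L = Module.finrank K L :=
        Module.finrank_mul_finrank K K⟮y⟯ L
      rw [hdeg'] at h5
      rw [hn]
      exact_mod_cast h5.symm
    have htowQ : (Module.finrank ℚ L : ℝ) = d * Module.finrank K L := by
      have h5 : Module.finrank ℚ K * Module.finrank K L = Module.finrank ℚ L :=
        Module.finrank_mul_finrank ℚ K L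
      exact_mod_cast h5.symm
    -- the unnormalised violation
    set R0 : ℝ := ∑ᶠ v : HeightOneSpectrum (𝓞 L),
      if (∀ p ∈ T, v.asIdeal.comap (algebraMap (𝓞 K) (𝓞 L)) ≠ p.asIdeal) ∧
        ¬ (v.valuation L (x 0) = v.valuation L (x 1) ∧ v.valuation L (x 1) = v.valuation L (x 2))
      then Real.log (Ideal.absNorm v.asIdeal) else 0 with hR0
    have htr : rad T x = R0 / Module.finrank ℚ L := rfl
    have hdisc : ∀ (F : Type) [Field F] [NumberField F], |(NumberField.discr F : ℝ)| ≠ 0 := by
      intro F _ _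
      rw [abs_ne_zero]
      exact_mod_cast NumberField.discr_ne_zero F
    have hlD : logDisc K L = (Real.log |(NumberField.discr L : ℝ)| -
        Module.finrank K L * lK) / Module.finrank ℚ L := by
      unfold logDisc
      rw [Real.log_div (hdisc L) (pow_ne_zero _ (hdisc K)), Real.log_pow]
    have hhe : height x = Height.logHeight x / Module.finrank ℚ L := rfl
    rw [htr, hlD, hhe] at hv
    have h5 : M * (R0 + (Real.log |(NumberField.discr L : ℝ)| - Module.finrank K L * lK)) +
        c * Module.finrank ℚ L ≤ Height.logHeight x := by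
      have h6 := mul_le_mul_of_nonneg_right hv hLpos.le
      have e1 : (M * (R0 / Module.finrank ℚ L + (Real.log |(NumberField.discr L : ℝ)| -
          Module.finrank K L * lK) / Module.finrank ℚ L) + c) * Module.finrank ℚ L =
          M * (R0 + (Real.log |(NumberField.discr L : ℝ)| - Module.finrank K L * lK)) +
          c * Module.finrank ℚ L := by
        field_simp
      have e2 : Height.logHeight x / Module.finrank ℚ L * Module.finrank ℚ L =
          Height.logHeight x := by
        field_simp
      rw [e1, e2] at h6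
      exact h6
    -- the radical is at least the counting function
    have h6 : Pool.Agent.Y729.RV.cnt S' a ξ ≤ R0 := by
      rw [hR0]
      unfold Pool.Agent.Y729.RV.cnt
      have himp : ∀ w : HeightOneSpectrum (𝓞 L), Pool.Agent.Y729.RV.Nr S' a ξ w →
          (∀ p ∈ T, w.asIdeal.comap (algebraMap (𝓞 K) (𝓞 L)) ≠ p.asIdeal) ∧
          ¬ (w.valuation L (x 0) = w.valuation L (x 1) ∧
            w.valuation L (x 1) = w.valuation L (x 2)) := by
        intro w hw
        refine ⟨?_, Pool.Agent.Y729.AX.near_ne (Finset.mem_insert_self _ _) hs h12 h0 hw⟩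
        intro p hp hpw
        have h7 : ((Ideal.absNorm p.asIdeal : ℕ) : 𝓞 L) ∉ w.asIdeal := by
          refine Pool.Agent.Y729.AX.not_mem_of_primes ?_ fun l hl => hw.1 l ?_
          · rw [Ne, Ideal.absNorm_eq_zero_iff]
            exact p.ne_bot
          · exact Finset.mem_insert_of_mem (Finset.mem_biUnion.2 ⟨p, hp, hl⟩)
        apply h7
        have h8 := Ideal.absNorm_mem p.asIdeal
        rw [← hpw, Ideal.mem_comap, map_natCast] at h8
        rw [hpw] at h8
        exact h8
      have hfin1 : {w : HeightOneSpectrum (𝓞 L) | ¬ (w.valuation L (x 0) = w.valuation L (x 1) ∧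
          w.valuation L (x 1) = w.valuation L (x 2))}.Finite := by
        have hu : ∀ z : L, z ≠ 0 → {w : HeightOneSpectrum (𝓞 L) | w.valuation L z ≠ 1}.Finite := by
          intro z hz
          refine ((Pool.Agent.Y729.RV.val_fin hz).union
            (Pool.Agent.Y729.RV.val_fin (inv_ne_zero hz))).subset ?_
          intro w hw
          rcases lt_or_gt_of_ne hw with h9 | h9
          · exact Or.inl h9
          · right
            show w.valuation L z⁻¹ < 1
            rw [map_inv₀]
            exact inv_lt_one_of_one_lt₀ h9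
        refine ((hu _ h0).union ((hu _ h1).union (hu _ h2))).subset ?_
        intro w hw
        by_contra hcon
        simp only [Set.mem_union, Set.mem_ofPred_eq, not_or, not_not] at hcon
        apply hw
        rw [hcon.1, hcon.2.1, hcon.2.2]
        exact ⟨rfl, rfl⟩
      refine finsum_le_finsum' ?_ ?_ ?_
      · refine (Pool.Agent.Y729.RV.nr_fin S' hξa).subset fun w hw => ?_
        rw [Function.mem_support] at hw
        by_contra hcon
        exact hw (if_neg hcon)
      · refine hfin1.subset fun w hw => ?_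
        rw [Function.mem_support] at hw
        by_contra hcon
        exact hw (if_neg fun h => hcon h.2)
      · intro w
        by_cases hc : Pool.Agent.Y729.RV.Nr S' a ξ w
        · simp only [if_pos hc, if_pos (himp w hc), le_refl]
        · simp only [if_neg hc]
          split_ifs
          · exact Real.log_natCast_nonneg _
          · exact le_rfl
    have h7 := Pool.Agent.Y729.AX.ht_up hs h12 h2
    have h8 := Pool.Agent.Y729.AX.ht_down hs h12 h2
    rw [← hξ] at h7 h8
    set N : ℝ := ((Module.finrank ℚ L : ℕ) : ℝ) with hN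
    set f : ℝ := ((Module.finrank K⟮y⟯ L : ℕ) : ℝ) with hf
    set lg : ℝ := Height.logHeight₁ (AdjoinSimple.gen K y) with hlg
    have hNf : N = d * n * f := by rw [htowQ, htow]; ring
    have h9 : M * (Pool.Agent.Y729.RV.cnt S' a ξ + Real.log |(NumberField.discr L : ℝ)|) ≤
        Height.logHeight₁ ξ + (4 * l2 - c) * N + M * (n * f * lK) := by
      have h10 : M * Pool.Agent.Y729.RV.cnt S' a ξ ≤ M * R0 := mul_le_mul_of_nonneg_left h6 hM.le
      rw [htow] at h5
      have e3 : M * (R0 + (Real.log |(NumberField.discr L : ℝ)| - n * f * lK)) + c * N =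
          M * R0 + M * Real.log |(NumberField.discr L : ℝ)| - M * (n * f * lK) + c * N := by ring
      rw [e3] at h5
      have e4 : (4 * l2 - c) * N = 4 * (N * l2) - c * N := by ring
      rw [e4, mul_add]
      linarith
    have h10 : f * (Pool.Agent.Y729.RV.cnt S' a (AdjoinSimple.gen K y) +
        Real.log |(NumberField.discr K⟮y⟯ : ℝ)|) ≤ f * (1 / M * lg + C1) := by
      refine h3.trans ?_
      have h11 : Pool.Agent.Y729.RV.cnt S' a ξ + Real.log |(NumberField.discr L : ℝ)| ≤
          (Height.logHeight₁ ξ + (4 * l2 - c) * N + M * (n * f * lK)) / M := by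
        rw [le_div_iff₀ hM]
        linarith
      refine h11.trans (le_of_eq ?_)
      rw [h4, hNf, hC1]
      field_simp
      ring
    refine ⟨hdeg', hya, ?_, ?_⟩
    · -- the height
      have h11 : height x ≤ Real.log B := by
        rw [← Real.log_exp (height x)]
        exact Real.log_le_log (Real.exp_pos _) hh
      rw [hhe, div_le_iff₀ hLpos] at h11
      have h12 : f * lg ≤ f * X := by
        rw [h4] at h8
        refine h8.trans ?_
        rw [hX, hCx]
        have e5 : f * (d * n * Real.log B + d * n * (3 * l2)) =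
            Real.log B * (d * n * f) + 3 * ((d * n * f) * l2) := by ring
        rw [e5, ← hNf]
        linarith
      exact le_of_mul_le_mul_left h12 hFL
    · have e6 : ((3 : ℕ) : ℝ) - (3 - 1 / M) = 1 / M := by push_cast; ring
      rw [e6]
      exact le_of_mul_le_mul_left h10 hFL
  have hfin2 : (ψ '' V ∪ {P0}).Finite := (hfin.image ψ).union (Set.finite_singleton _)
  refine ⟨hfin2.subset hsub, ?_⟩
  have h3 : ((Exceptions K T r M c B).ncard : ℝ) ≤ (V.ncard : ℝ) + 1 := by
    have h4 := (Set.ncard_le_ncard hsub hfin2).trans (Set.ncard_union_le _ _)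
    rw [Set.ncard_singleton] at h4
    have h5 := Set.ncard_image_le (f := ψ) hfin
    exact_mod_cast (by omega : (Exceptions K T r M c B).ncard ≤ V.ncard + 1)
  have hBe : B ^ ((d : ℝ) * n * exponent α r M + δ) =
      Real.exp (Real.log B * (d * n * exponent α r M + δ)) := Real.rpow_def_of_pos hB0 _
  have hone : (1 : ℝ) ≤ B ^ ((d : ℝ) * n * exponent α r M + δ) :=
    Real.one_le_rpow hB1 (by positivity)
  rw [add_mul, one_mul]
  refine h3.trans (add_le_add (hcard.trans (le_of_eq ?_)) hone)
  rw [hBe, mul_assoc D, ← Real.exp_add, hX]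
  congr 2
  have e7 : δ / (d * n) * (d * n) = δ := by field_simp
  have e8 : (exponent α r M + δ / (d * n)) * (d * n * Real.log B + Cx) =
      (exponent α r M + δ / (d * n)) * Cx +
        Real.log B * (d * n * exponent α r M + δ / (d * n) * (d * n)) := by ring
  rw [e8, e7]

end Pool.Agent.Results.MP_a793bb_nt.AbcInAllExtensions
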